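import Pool.Agent.HEC.Stmts

/-!
# Squad HEC, row MIN (helper36): conductances with prescribed leverage scores
-/

set_option autoImplicit false

open Finset Matrix

namespace Pool.Agent.HEC.H36

open Pool.Agent.HEC

open Classical in
theorem lap_update {V E : Type} [Fintype V] [Fintype E] (s t : E → V) (o : V) (c : E → ℝ) (e : E)
    (x : ℝ) : lap s t o (Function.update c e x) =
      lap s t o c + (x - c e) • vecMulVec (chi s t o e) (chi s t o e) := by
  rw [← sub_eq_iff_eq_add', lap, lap, ← Finset.sum_sub_distrib,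
    Finset.sum_eq_single e]
  · rw [Function.update_self, sub_smul]
  · intro e' _ h
    rw [Function.update_of_ne h, sub_self]
  · intro h
    exact absurd (Finset.mem_univ e) h

theorem lap_cont {V E : Type} [Fintype V] [Fintype E] (s t : E → V) (o : V) :
    Continuous fun c : E → ℝ => (lap s t o c).det := by
  apply Continuous.matrix_det
  unfold lap
  fun_prop

open Classical in
theorem min (h1 : MstStmt) (h2 : DlbStmt) (h3 : Rk1Stmt) : MinStmt := by
  intro V E _ _ s t k lam eta o hlam hk hcut hel
  haveI : Nonempty V := ⟨o⟩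
  -- positive definiteness
  obtain ⟨T0, -, hT0c, hT0, -⟩ := h1 V E s t k (fun _ => 0) lam hlam (fun e => (hk e).le)
    (fun _ => le_rfl) hcut
  have hpd : ∀ c : E → ℝ, (∀ e, 0 < c e) → (lap s t o c).PosDef := fun c hc =>
    (h2 V E s t o T0 c hc hT0c hT0).1
  -- the functional
  set F : (E → ℝ) → ℝ := fun c => Real.log (lap s t o c).det - eta * ∑ e, k e * Real.log (c e)
    with hF
  set δ : ℝ := eta - 2 / lam with hδ
  have hδ0 : 0 < δ := by
    have h4 : 2 / lam < eta := by
      rw [div_lt_iff₀ hlam]; exact hel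
    linarith
  have hlow : ∀ c : E → ℝ, (∀ e, 0 < c e) → (∀ e, c e ≤ 1) →
      ∀ e, δ * (k e * -Real.log (c e)) ≤ F c := by
    intro c hc hc1 e
    have hw : ∀ e, 0 ≤ -Real.log (c e) := fun e => by
      have := Real.log_nonpos (hc e).le (hc1 e)
      linarith
    obtain ⟨T, -, hTc, hT, hTw⟩ := h1 V E s t k (fun e => -Real.log (c e)) lam hlam
      (fun e => (hk e).le) hw hcut
    have h4 := (h2 V E s t o T c hc hTc hT).2
    have h5 : 0 < ∏ e ∈ T, c e := Finset.prod_pos fun e _ => hc e
    have h6 : ∑ e ∈ T, Real.log (c e) ≤ Real.log (lap s t o c).det := by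
      rw [← Real.log_prod (fun e _ => (hc e).ne')]
      exact Real.log_le_log h5 h4
    have h7 : ∑ e ∈ T, -Real.log (c e) ≤ 2 / lam * ∑ e, k e * -Real.log (c e) := by
      rw [div_mul_eq_mul_div, le_div_iff₀ hlam, mul_comm]
      exact hTw
    have h8 : k e * -Real.log (c e) ≤ ∑ e, k e * -Real.log (c e) :=
      Finset.single_le_sum (f := fun e => k e * -Real.log (c e))
        (fun e _ => mul_nonneg (hk e).le (hw e)) (Finset.mem_univ e)
    have h9 : ∑ e, k e * -Real.log (c e) = -∑ e, k e * Real.log (c e) := by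
      rw [← Finset.sum_neg_distrib]
      exact Finset.sum_congr rfl fun e _ => mul_neg _ _
    have h10 : ∑ e ∈ T, -Real.log (c e) = -∑ e ∈ T, Real.log (c e) := Finset.sum_neg_distrib _
    calc δ * (k e * -Real.log (c e)) ≤ δ * ∑ e, k e * -Real.log (c e) :=
          mul_le_mul_of_nonneg_left h8 hδ0.le
      _ = eta * (∑ e, k e * -Real.log (c e)) - 2 / lam * ∑ e, k e * -Real.log (c e) := by
          rw [hδ]; ring
      _ ≤ eta * (∑ e, k e * -Real.log (c e)) - ∑ e ∈ T, -Real.log (c e) := by linarith
      _ = ∑ e ∈ T, Real.log (c e) - eta * ∑ e, k e * Real.log (c e) := by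
          rw [h9, h10]; ring
      _ ≤ F c := by rw [hF]; linarith
  -- the box
  set F1 : ℝ := F (fun _ => 1) with hF1
  set L : ℝ := 1 + ∑ e, |F1| / (δ * k e) with hL
  have hL0 : 0 < L := by
    have : 0 ≤ ∑ e, |F1| / (δ * k e) := Finset.sum_nonneg fun e _ => by
      have := hk e
      positivity
    linarith
  have hLe : ∀ e, F1 < δ * (k e * L) := by
    intro e
    have h4 : 0 < δ * k e := mul_pos hδ0 (hk e)
    have h5 : |F1| / (δ * k e) ≤ ∑ e, |F1| / (δ * k e) :=
      Finset.single_le_sum (f := fun e => |F1| / (δ * k e))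
        (fun e _ => by have := hk e; positivity) (Finset.mem_univ e)
    have h6 : |F1| / (δ * k e) < L := by linarith
    rw [div_lt_iff₀ h4] at h6
    calc F1 ≤ |F1| := le_abs_self _
      _ < L * (δ * k e) := h6
      _ = _ := by ring
  set ε : ℝ := Real.exp (-L) with hε
  have hε0 : 0 < ε := Real.exp_pos _
  have hε1 : ε < 1 := by
    rw [hε, Real.exp_lt_one_iff]; linarith
  set B : Set (E → ℝ) := Set.pi Set.univ fun _ => Set.Icc ε 1 with hB
  have hBc : IsCompact B := isCompact_univ_pi fun _ => isCompact_Icc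
  have h1B : (fun _ => (1 : ℝ)) ∈ B := fun e _ => ⟨hε1.le, le_rfl⟩
  have hBpos : ∀ c ∈ B, ∀ e, 0 < c e := fun c hc e => lt_of_lt_of_le hε0 (hc e trivial).1
  have hcont : ContinuousOn F B := by
    refine ContinuousOn.sub ?_ ?_
    · exact ContinuousOn.log (lap_cont s t o).continuousOn
        fun c hc => (hpd c (hBpos c hc)).det_pos.ne'
    · refine ContinuousOn.mul continuousOn_const ?_
      refine continuousOn_finset_sum _ fun e _ => ?_
      refine ContinuousOn.mul continuousOn_const ?_
      exact ContinuousOn.log (continuous_apply e).continuousOn fun c hc => (hBpos c hc e).ne'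
  obtain ⟨c, hcB, hmin⟩ := hBc.exists_isMinOn ⟨_, h1B⟩ hcont
  have hcpos := hBpos c hcB
  have hcle : ∀ e, c e ≤ 1 := fun e => (hcB e trivial).2
  have hcε : ∀ e, ε < c e := by
    intro e
    have h4 := hlow c hcpos hcle e
    have h5 : F c ≤ F1 := hmin h1B
    have h6 : δ * (k e * -Real.log (c e)) < δ * (k e * L) := lt_of_le_of_lt (h4.trans h5) (hLe e)
    have h7 : -Real.log (c e) < L :=
      lt_of_mul_lt_mul_left (lt_of_mul_lt_mul_left h6 hδ0.le) (hk e).le
    rw [hε, ← Real.lt_log_iff_exp_lt (hcpos e)]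
    linarith
  refine ⟨c, hcpos, hpd c hcpos, fun e => ?_⟩
  set A := lap s t o c with hA
  set l : ℝ := c e * (chi s t o e ⬝ᵥ (A⁻¹ *ᵥ chi s t o e)) with hl
  have hApd : A.PosDef := hpd c hcpos
  have hl0 : 0 ≤ l := mul_nonneg (hcpos e).le (h3 _ A (chi s t o e) 0 hApd).2
  -- the perturbation
  have hpert : ∀ τ : ℝ, 0 < τ → τ < 1 → ε ≤ (1 - τ) * c e → l * (1 - τ) ≤ eta * k e := by
    intro τ hτ0 hτ1 hτε
    set c' : E → ℝ := Function.update c e ((1 - τ) * c e) with hc'
    have hc'B : c' ∈ B := by
      intro e' _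
      by_cases h : e' = e
      · subst h
        rw [hc', Function.update_self]
        refine ⟨hτε, ?_⟩
        have := hcpos e'
        have := hcle e'
        nlinarith
      · rw [hc', Function.update_of_ne h]
        exact hcB e' trivial
    have h4 : F c ≤ F c' := hmin hc'B
    have h5 : lap s t o c' = A + (-(τ * c e)) • vecMulVec (chi s t o e) (chi s t o e) := by
      rw [hc', lap_update, hA]
      congr 2
      ring
    have h6 : (lap s t o c').det = A.det * (1 - τ * l) := by
      rw [h5, (h3 _ A (chi s t o e) _ hApd).1, hl]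
      ring
    have hdA : 0 < A.det := hApd.det_pos
    have hd' : 0 < (lap s t o c').det := (hpd c' (hBpos c' hc'B)).det_pos
    have h7 : 0 < 1 - τ * l := by
      rw [h6] at hd'
      exact pos_of_mul_pos_right hd' hdA.le
    have h8 : ∑ e', k e' * Real.log (c' e') = ∑ e', k e' * Real.log (c e') + k e * Real.log (1 - τ) := by
      rw [← sub_eq_iff_eq_add', ← Finset.sum_sub_distrib, Finset.sum_eq_single e]
      · rw [hc', Function.update_self, Real.log_mul (by linarith) (hcpos e).ne']
        ring
      · intro e' _ h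
        rw [hc', Function.update_of_ne h, sub_self]
      · intro h
        exact absurd (Finset.mem_univ e) h
    have h9 : eta * (k e * Real.log (1 - τ)) ≤ Real.log (1 - τ * l) := by
      have h10 : F c' = F c + Real.log (1 - τ * l) - eta * (k e * Real.log (1 - τ)) := by
        rw [hF]
        simp only
        rw [h6, h8, Real.log_mul hdA.ne' h7.ne']
        ring
      linarith
    have h11 : Real.log (1 - τ * l) ≤ -(τ * l) := by
      have := Real.log_le_sub_one_of_pos h7
      linarith
    have h12 : -(τ / (1 - τ)) ≤ Real.log (1 - τ) := by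
      have h13 := Real.one_sub_inv_le_log_of_pos (show 0 < 1 - τ by linarith)
      have h14 : 1 - (1 - τ)⁻¹ = -(τ / (1 - τ)) := by
        have h17' : (1 - τ) ≠ 0 := by linarith
        field_simp
        ring
      linarith
    have heta : 0 < eta := by
      by_contra h
      push Not at h
      nlinarith
    have h15 : eta * k e * -(τ / (1 - τ)) ≤ eta * k e * Real.log (1 - τ) :=
      mul_le_mul_of_nonneg_left h12 (mul_pos heta (hk e)).le
    have h16 : τ * l ≤ eta * k e * (τ / (1 - τ)) := by nlinarith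
    have h17 : 0 < 1 - τ := by linarith
    have h18 : τ * l * (1 - τ) ≤ eta * k e * τ := by
      calc τ * l * (1 - τ) ≤ eta * k e * (τ / (1 - τ)) * (1 - τ) :=
            mul_le_mul_of_nonneg_right h16 h17.le
        _ = eta * k e * τ := by field_simp
    have h19 : τ * (l * (1 - τ)) ≤ τ * (eta * k e) := by linarith
    exact le_of_mul_le_mul_left h19 hτ0
  refine le_of_forall_pos_le_add fun η hη => ?_
  have hr : ε / c e < 1 := by
    rw [div_lt_one (hcpos e)]; exact hcε e
  obtain ⟨τ, hτ0, hτ1, hτ2, hτ3⟩ : ∃ τ : ℝ, 0 < τ ∧ τ < 1 ∧ τ ≤ 1 - ε / c e ∧ l * τ ≤ η := by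
    have hg : 0 < 1 - ε / c e := by linarith
    have hg' : 0 < η / (l + 1) := by positivity
    refine ⟨Min.min (1 / 2) (Min.min (1 - ε / c e) (η / (l + 1))), ?_, ?_, ?_, ?_⟩
    · exact lt_min (by norm_num) (lt_min hg hg')
    · exact lt_of_le_of_lt (min_le_left _ _) (by norm_num)
    · exact (min_le_right _ _).trans (min_le_left _ _)
    · have h20 : Min.min (1 / 2) (Min.min (1 - ε / c e) (η / (l + 1))) ≤ η / (l + 1) :=
        (min_le_right _ _).trans (min_le_right _ _)
      calc l * _ ≤ l * (η / (l + 1)) := mul_le_mul_of_nonneg_left h20 hl0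
        _ ≤ (l + 1) * (η / (l + 1)) := mul_le_mul_of_nonneg_right (by linarith) hg'.le
        _ = η := by field_simp
  have h21 := hpert τ hτ0 hτ1 (by
    have h22 : ε / c e ≤ 1 - τ := by linarith
    rwa [div_le_iff₀ (hcpos e)] at h22)
  nlinarith

end Pool.Agent.HEC.H36
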